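import Pool.Agent.Run7.h58.AR.Iface

/-! Project AR of helper58, piece ELEM (helper351). -/

set_option autoImplicit false

namespace Pool.Agent.Run7.h351.AR

open Complex Pool.Agent.Run7.h58.AR

theorem sin_parts (x y : ℝ) : (Complex.sin (⟨x, y⟩ : ℂ)).re = Real.sin x * Real.cosh y ∧
    (Complex.sin (⟨x, y⟩ : ℂ)).im = Real.cos x * Real.sinh y := by
  have h : (⟨x, y⟩ : ℂ) = x + y * I := by apply Complex.ext <;> simp
  rw [h, Complex.sin_add_mul_I, ← Complex.ofReal_sin, ← Complex.ofReal_cos, ← Complex.ofReal_cosh,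
    ← Complex.ofReal_sinh]
  constructor <;> simp [Complex.sin_ofReal_re, Complex.cos_ofReal_re, Complex.sinh_ofReal_re,
    Complex.cosh_ofReal_re]

theorem cos_parts (x y : ℝ) : (Complex.cos (⟨x, y⟩ : ℂ)).re = Real.cos x * Real.cosh y ∧
    (Complex.cos (⟨x, y⟩ : ℂ)).im = -(Real.sin x * Real.sinh y) := by
  have h : (⟨x, y⟩ : ℂ) = x + y * I := by apply Complex.ext <;> simp
  rw [h, Complex.cos_add_mul_I, ← Complex.ofReal_sin, ← Complex.ofReal_cos, ← Complex.ofReal_cosh,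
    ← Complex.ofReal_sinh]
  constructor <;> simp [Complex.sin_ofReal_re, Complex.cos_ofReal_re, Complex.sinh_ofReal_re,
    Complex.cosh_ofReal_re]

/-- the formula for `|AA|^2 - |phi|^2`, multiplied by `|v|^2` -/
theorem diff_formula (x y : ℝ) (hv : (⟨x, y⟩ : ℂ) ≠ 0) :
    (‖AA ⟨x, y⟩‖ ^ 2 - ‖phi ⟨x, y⟩‖ ^ 2) * (x ^ 2 + y ^ 2) =
      x ^ 2 * (Real.cosh y ^ 2 + Real.sinh y ^ 2) + y ^ 2 * (Real.cos x ^ 2 - Real.sin x ^ 2) +
      (x * (Real.cosh y * Real.sinh y) - y * (Real.cos x * Real.sin x)) +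
      (x ^ 2 + y ^ 2) * (x * (Real.cosh y * Real.sinh y) + y * (Real.cos x * Real.sin x)) := by
  obtain ⟨hs1, hs2⟩ := sin_parts x y
  obtain ⟨hc1, hc2⟩ := cos_parts x y
  set s : ℂ := sn ⟨x, y⟩ with hsdef
  have hvs : (⟨x, y⟩ : ℂ) * s = Complex.sin ⟨x, y⟩ := by
    rw [hsdef, sn, if_neg hv]
    field_simp
  have e1 : x * s.re - y * s.im = Real.sin x * Real.cosh y := by
    rw [← hs1, ← hvs]; simp
  have e2 : x * s.im + y * s.re = Real.cos x * Real.sinh y := by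
    rw [← hs2, ← hvs]; simp
  have hA : ‖AA ⟨x, y⟩‖ ^ 2 = (Real.cos x * Real.cosh y +
      ((1 + x ^ 2 - y ^ 2) * s.im + 2 * x * y * s.re) / 2) ^ 2 +
      (-(Real.sin x * Real.sinh y) - ((1 + x ^ 2 - y ^ 2) * s.re - 2 * x * y * s.im) / 2) ^ 2 := by
    rw [Complex.sq_norm, Complex.normSq_apply, AA, ← hsdef, ← hc1, ← hc2]
    simp [pow_two]
    ring
  have hP : ‖phi ⟨x, y⟩‖ ^ 2 = (((1 - x ^ 2 + y ^ 2) * s.re + 2 * x * y * s.im) / 2) ^ 2 +
      (((1 - x ^ 2 + y ^ 2) * s.im - 2 * x * y * s.re) / 2) ^ 2 := by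
    rw [Complex.sq_norm, Complex.normSq_apply, phi, ← hsdef]
    simp [pow_two]
    ring
  have hX := Real.cos_sq_add_sin_sq x
  have hC := Real.cosh_sq_sub_sinh_sq y
  rw [hA, hP]
  generalize Real.cos x = X at *
  generalize Real.sin x = S at *
  generalize Real.cosh y = Ch at *
  generalize Real.sinh y = Sh at *
  generalize s.re = p at *
  generalize s.im = q at *
  have hq : (x ^ 2 + y ^ 2) * q = x * (X * Sh) - y * (S * Ch) := by
    linear_combination x * e2 - y * e1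
  have hp : (x ^ 2 + y ^ 2) * p = x * (S * Ch) + y * (X * Sh) := by
    linear_combination x * e1 + y * e2
  have hn : (x ^ 2 + y ^ 2) * (p ^ 2 + q ^ 2) = (S * Ch) ^ 2 + (X * Sh) ^ 2 := by
    rw [← e1, ← e2]; ring
  linear_combination (x ^ 2 - y ^ 2) * hn +
    X * Ch * ((1 + x ^ 2 - y ^ 2) * hq + 2 * x * y * hp) +
    S * Sh * ((1 + x ^ 2 - y ^ 2) * hp - 2 * x * y * hq) +
    (x ^ 2 * (Ch ^ 2 + Sh ^ 2) + x * Ch * Sh * (1 + (x ^ 2 + y ^ 2))) * hX +
    (y ^ 2 * (X ^ 2 - S ^ 2) + y * X * S * ((x ^ 2 + y ^ 2) - 1)) * hC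

theorem t_ELEM : S_ELEM := by
  intro v hx hy
  by_cases hv : v = 0
  · subst hv
    simp [phi, AA, sn, Complex.sq_norm, Complex.normSq_apply]
    norm_num
  obtain ⟨x, y⟩ := v
  simp only at hx hy
  have h := diff_formula x y hv
  have hN : 0 < x ^ 2 + y ^ 2 := by
    rcases eq_or_lt_of_le (by positivity : 0 ≤ x ^ 2 + y ^ 2) with h0 | h0
    · exfalso
      apply hv
      have h1 : x = 0 := by nlinarith [sq_nonneg x, sq_nonneg y]
      have h2 : y = 0 := by nlinarith [sq_nonneg x, sq_nonneg y]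
      subst h1 h2
      rfl
    · exact h0
  have hX := Real.cos_sq_add_sin_sq x
  have hC := Real.cosh_sq_sub_sinh_sq y
  have hSh : y ≤ Real.sinh y := Real.self_le_sinh_iff.mpr hy
  have hCh : 1 ≤ Real.cosh y := Real.one_le_cosh y
  have hS : |Real.sin x| ≤ x := by
    have := Real.abs_sin_le_abs (x := x)
    rwa [abs_of_nonneg hx] at this
  have hXS : |Real.cos x * Real.sin x| ≤ x := by
    rw [abs_mul]
    calc |Real.cos x| * |Real.sin x| ≤ 1 * x :=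
          mul_le_mul (Real.abs_cos_le_one x) hS (abs_nonneg _) (by norm_num)
      _ = x := one_mul x
  obtain ⟨hXS1, hXS2⟩ := abs_le.mp hXS
  obtain ⟨hS1, hS2⟩ := abs_le.mp hS
  have hS3 : Real.sin x ^ 2 ≤ x ^ 2 := by nlinarith
  have hSh2 : y ^ 2 ≤ Real.sinh y ^ 2 := by nlinarith
  have hCS : y ≤ Real.cosh y * Real.sinh y := by nlinarith
  have a1 : x * y ≤ x * (Real.cosh y * Real.sinh y) := mul_le_mul_of_nonneg_left hCS hx
  have a2 : y * (Real.cos x * Real.sin x) ≤ y * x := mul_le_mul_of_nonneg_left hXS2 hy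
  have a3 : y * (-x) ≤ y * (Real.cos x * Real.sin x) := mul_le_mul_of_nonneg_left hXS1 hy
  have a4 : 0 ≤ (x ^ 2 + y ^ 2) * (x * (Real.cosh y * Real.sinh y) +
      y * (Real.cos x * Real.sin x)) := by
    apply mul_nonneg hN.le
    nlinarith
  have a5 : x ^ 2 * y ^ 2 ≤ x ^ 2 * Real.sinh y ^ 2 := mul_le_mul_of_nonneg_left hSh2 (sq_nonneg x)
  have a6 : y ^ 2 * Real.sin x ^ 2 ≤ y ^ 2 * x ^ 2 := mul_le_mul_of_nonneg_left hS3 (sq_nonneg y)
  have key : (x ^ 2 + y ^ 2) ≤ (‖AA ⟨x, y⟩‖ ^ 2 - ‖phi ⟨x, y⟩‖ ^ 2) * (x ^ 2 + y ^ 2) := by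
    rw [h]
    have e1 : Real.cosh y ^ 2 = 1 + Real.sinh y ^ 2 := by linarith
    have e2 : Real.cos x ^ 2 = 1 - Real.sin x ^ 2 := by linarith
    rw [e1, e2]
    nlinarith
  have := (le_mul_iff_one_le_left hN).mp key
  linarith

end Pool.Agent.Run7.h351.AR
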